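import Pool.Agent.MNT.StmtsT

set_option autoImplicit false

/-!
# MNT, row ENL: the energy of a probability vector as a sum over clusters
-/

namespace Pool.Agent.MNT.H82

open scoped Classical

theorem lev_ite {P : Type} [Fintype P] [DecidableEq P] (Λ : Lam P) (s : Finset P) :
    Λ.lev s = ∑ e ∈ Λ.V, Λ.l e * (if s ⊆ e then 1 else 0) := by
  unfold Lam.lev
  rw [Finset.sum_filter]
  refine Finset.sum_congr rfl fun e _ => ?_
  split_ifs <;> simp

theorem enl : EnlStmt := by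
  intro P _ _ Λ μ x hμ
  have h1 : ∀ c d e : Finset P, (if c ∪ d ⊆ e then (1 : ℝ) else 0) =
      (if c ⊆ e then 1 else 0) * (if d ⊆ e then 1 else 0) := by
    intro c d e
    by_cases hc : c ⊆ e <;> by_cases hd : d ⊆ e <;> simp [Finset.union_subset_iff, hc, hd]
  have h2 : ∀ c e : Finset P, (if insert x c ⊆ e then (1 : ℝ) else 0) =
      (if x ∈ e then 1 else 0) * (if c ⊆ e then 1 else 0) := by
    intro c e
    by_cases hc : c ⊆ e <;> by_cases hx : x ∈ e <;> simp [Finset.insert_subset_iff, hc, hx]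
  have hM : ∀ e : Finset P, ∑ c ∈ Λ.V with c ⊆ e, μ c =
      ∑ c ∈ Λ.V, μ c * (if c ⊆ e then 1 else 0) := by
    intro e
    rw [Finset.sum_filter]
    refine Finset.sum_congr rfl fun c _ => ?_
    split_ifs <;> simp
  have hin : ∀ (X : ℝ) (χ : Finset P → ℝ), ∑ c ∈ Λ.V, ∑ d ∈ Λ.V,
      μ c * μ d * (χ c * χ d - X * χ c - X * χ d) =
      (∑ c ∈ Λ.V, μ c * χ c) ^ 2 - 2 * X * ∑ c ∈ Λ.V, μ c * χ c := by
    intro X χ
    have e1 : ∀ c d : Finset P, μ c * μ d * (χ c * χ d - X * χ c - X * χ d) =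
        (μ c * χ c) * (μ d * χ d) - X * ((μ c * χ c) * μ d) - X * (μ c * (μ d * χ d)) := by
      intro c d; ring
    simp_rw [e1, Finset.sum_sub_distrib, ← Finset.mul_sum, ← Finset.sum_mul, hμ]
    ring
  have hlev : ∀ c d : Finset P,
      μ c * μ d * (Λ.lev (c ∪ d) - Λ.lev (insert x c) - Λ.lev (insert x d)) =
      ∑ e ∈ Λ.V, Λ.l e * (μ c * μ d * ((if c ⊆ e then 1 else 0) * (if d ⊆ e then 1 else 0)
        - (if x ∈ e then 1 else 0) * (if c ⊆ e then 1 else 0)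
        - (if x ∈ e then 1 else 0) * (if d ⊆ e then 1 else 0))) := by
    intro c d
    rw [lev_ite, lev_ite, lev_ite, ← Finset.sum_sub_distrib, ← Finset.sum_sub_distrib,
      Finset.mul_sum]
    refine Finset.sum_congr rfl fun e _ => ?_
    rw [h1, h2, h2]
    ring
  unfold Lam.En
  simp_rw [hlev]
  have hswap : ∑ c ∈ Λ.V, ∑ d ∈ Λ.V, ∑ e ∈ Λ.V,
      Λ.l e * (μ c * μ d * ((if c ⊆ e then 1 else 0) * (if d ⊆ e then 1 else 0)
        - (if x ∈ e then 1 else 0) * (if c ⊆ e then 1 else 0)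
        - (if x ∈ e then 1 else 0) * (if d ⊆ e then 1 else 0))) =
      ∑ e ∈ Λ.V, ∑ c ∈ Λ.V, ∑ d ∈ Λ.V,
      Λ.l e * (μ c * μ d * ((if c ⊆ e then 1 else 0) * (if d ⊆ e then 1 else 0)
        - (if x ∈ e then 1 else 0) * (if c ⊆ e then 1 else 0)
        - (if x ∈ e then 1 else 0) * (if d ⊆ e then 1 else 0))) := by
    rw [Finset.sum_comm (s := Λ.V) (t := Λ.V) (f := fun e c => ∑ d ∈ Λ.V,
      Λ.l e * (μ c * μ d * ((if c ⊆ e then 1 else 0) * (if d ⊆ e then 1 else 0)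
        - (if x ∈ e then 1 else 0) * (if c ⊆ e then 1 else 0)
        - (if x ∈ e then 1 else 0) * (if d ⊆ e then 1 else 0))))]
    exact Finset.sum_congr rfl fun c _ => Finset.sum_comm
  rw [hswap]
  refine Finset.sum_congr rfl fun e _ => ?_
  simp_rw [← Finset.mul_sum]
  rw [hin, hM]

end Pool.Agent.MNT.H82
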